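import Pool.Agent.N662.SE.Stm

set_option autoImplicit false

open MeasureTheory ProbabilityTheory Filter Topology

namespace Pool.Agent.N50.SE.CVX

open TH967.DP Pool.Agent.N662.SE

lemma log_sum_exp {ι : Type*} [Fintype ι] [Nonempty ι] (f g : ι → ℝ) (a b : ℝ) (ha : 0 ≤ a)
    (hb : 0 ≤ b) (hab : a + b = 1) :
    Real.log (∑ w, Real.exp (a * f w + b * g w)) ≤
      a * Real.log (∑ w, Real.exp (f w)) + b * Real.log (∑ w, Real.exp (g w)) := by
  have hU : 0 < ∑ w, Real.exp (f w) :=
    Finset.sum_pos (fun w _ => Real.exp_pos _) Finset.univ_nonempty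
  have hV : 0 < ∑ w, Real.exp (g w) :=
    Finset.sum_pos (fun w _ => Real.exp_pos _) Finset.univ_nonempty
  have hS : 0 < ∑ w, Real.exp (a * f w + b * g w) :=
    Finset.sum_pos (fun w _ => Real.exp_pos _) Finset.univ_nonempty
  set U := ∑ w, Real.exp (f w) with hUd
  set V := ∑ w, Real.exp (g w) with hVd
  have key : ∑ w, Real.exp (a * f w + b * g w) ≤
      Real.exp (a * Real.log U + b * Real.log V) := by
    have h1 : ∀ w, Real.exp (a * f w + b * g w) ≤
        Real.exp (a * Real.log U + b * Real.log V) *
          (a * (Real.exp (f w) / U) + b * (Real.exp (g w) / V)) := by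
      intro w
      have h2 := convexOn_exp.2 (Set.mem_univ (f w - Real.log U)) (Set.mem_univ (g w - Real.log V))
        ha hb hab
      simp only [smul_eq_mul] at h2
      rw [Real.exp_sub, Real.exp_sub, Real.exp_log hU, Real.exp_log hV] at h2
      calc Real.exp (a * f w + b * g w) = Real.exp (a * Real.log U + b * Real.log V) *
          Real.exp (a * (f w - Real.log U) + b * (g w - Real.log V)) := by
            rw [← Real.exp_add]; congr 1; ring
        _ ≤ _ := mul_le_mul_of_nonneg_left h2 (Real.exp_pos _).le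
    calc ∑ w, Real.exp (a * f w + b * g w) ≤ ∑ w, Real.exp (a * Real.log U + b * Real.log V) *
          (a * (Real.exp (f w) / U) + b * (Real.exp (g w) / V)) :=
            Finset.sum_le_sum fun w _ => h1 w
      _ = Real.exp (a * Real.log U + b * Real.log V) *
          (a * ((∑ w, Real.exp (f w)) / U) + b * ((∑ w, Real.exp (g w)) / V)) := by
            rw [← Finset.mul_sum, Finset.sum_add_distrib, ← Finset.mul_sum, ← Finset.mul_sum,
              Finset.sum_div, Finset.sum_div]
      _ = _ := by
            rw [← hUd, ← hVd, div_self hU.ne', div_self hV.ne', mul_one, mul_one, hab, mul_one]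
  calc Real.log (∑ w, Real.exp (a * f w + b * g w)) ≤
      Real.log (Real.exp (a * Real.log U + b * Real.log V)) := Real.log_le_log hS key
    _ = _ := Real.log_exp _

theorem main (hc : S_CONC) : S_CVX := by
  intro d hd Ω _ P _ ω hω hint β n
  refine ⟨convex_univ, ?_⟩
  intro x _ y _ a b ha hb hab
  have hix := (hc d hd Ω P ω hω hint β x 0 0 n).2.1
  have hiy := (hc d hd Ω P ω hω hint β y 0 0 n).2.1
  have hiz := (hc d hd Ω P ω hω hint β (a • x + b • y) 0 0 n).2.1
  simp only [smul_eq_mul]
  unfold free
  rw [← integral_const_mul, ← integral_const_mul,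
    ← integral_add (hix.const_mul a) (hiy.const_mul b)]
  refine integral_mono hiz ((hix.const_mul a).add (hiy.const_mul b)) ?_
  intro p
  have : Nonempty (Fin d) := ⟨⟨0, hd⟩⟩
  simp only [lw, part, Set.indicator_univ, Pi.add_apply, Pi.smul_apply, smul_eq_mul]
  have := log_sum_exp
    (fun w : Fin n → Step d => β * energy (fun i y => ω (0 + i) (0 + y) p) w +
      ∑ k, x k * (pos w n k : ℝ))
    (fun w : Fin n → Step d => β * energy (fun i y => ω (0 + i) (0 + y) p) w +
      ∑ k, y k * (pos w n k : ℝ)) a b ha hb hab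
  refine le_trans (le_of_eq ?_) this
  congr 1
  apply Finset.sum_congr rfl
  intro w _
  congr 1
  have e1 : ∑ k, (a * x k + b * y k) * (pos w n k : ℝ) =
      a * (∑ k, x k * (pos w n k : ℝ)) + b * ∑ k, y k * (pos w n k : ℝ) := by
    rw [Finset.mul_sum, Finset.mul_sum, ← Finset.sum_add_distrib]
    apply Finset.sum_congr rfl
    intro k _
    ring
  rw [e1]
  linear_combination (-(β * energy (fun i y => ω (0 + i) (0 + y) p) w)) * hab

end Pool.Agent.N50.SE.CVX
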