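import Pool.Agent.N662.SE.Stm
import Pool.Agent.TH967.DP.Paths

set_option autoImplicit false

open MeasureTheory ProbabilityTheory Filter Topology

namespace Pool.Agent.N50.SE.SUP

open TH967.DP Pool.Agent.N662.SE

variable {d : ℕ}

lemma sum_split {m T : ℕ} (F : (Fin (m + T) → Step d) → ℝ) :
    ∑ w : Fin (m + T) → Step d, F w =
      ∑ u : Fin m → Step d, ∑ v : Fin T → Step d, F (Fin.append u v) := by
  rw [← Fintype.sum_prod_type']
  exact (Fintype.sum_equiv (Fin.appendEquiv m T) (fun p => F (Fin.append p.1 p.2)) F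
    (fun p => rfl)).symm

/-- the weight of a walk -/
noncomputable def wt (β : ℝ) (h : Fin d → ℝ) (η : ℕ → (Fin d → ℤ) → ℝ) {m : ℕ}
    (u : Fin m → Step d) : ℝ :=
  Real.exp (β * energy η u + ∑ k, h k * (pos u m k : ℝ))

lemma part_eq (β : ℝ) (h : Fin d → ℝ) (η : ℕ → (Fin d → ℤ) → ℝ) (m : ℕ) :
    part β h η m Set.univ = ∑ u : Fin m → Step d, wt β h η u := by
  simp only [part, Set.indicator_univ, wt]

lemma wt_pos (β : ℝ) (h : Fin d → ℝ) (η : ℕ → (Fin d → ℤ) → ℝ) {m : ℕ}
    (u : Fin m → Step d) : 0 < wt β h η u := Real.exp_pos _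

lemma part_pos (hd : 1 ≤ d) (β : ℝ) (h : Fin d → ℝ) (η : ℕ → (Fin d → ℤ) → ℝ) (m : ℕ) :
    0 < part β h η m Set.univ := by
  have : Nonempty (Fin d) := ⟨⟨0, hd⟩⟩
  rw [part_eq]
  exact Finset.sum_pos (fun w _ => wt_pos _ _ _ _) Finset.univ_nonempty

lemma part_add (β : ℝ) (h : Fin d → ℝ) (η : ℕ → (Fin d → ℤ) → ℝ) (m n : ℕ) :
    part β h η (m + n) Set.univ = ∑ u : Fin m → Step d,
      wt β h η u * part β h (fun i y => η (m + i) (pos u m + y)) n Set.univ := by
  rw [part_eq, sum_split]
  apply Finset.sum_congr rfl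
  intro u _
  rw [part_eq, Finset.mul_sum]
  apply Finset.sum_congr rfl
  intro v _
  unfold wt
  rw [energy_append, ← Real.exp_add]
  congr 1
  have e : ∀ k, h k * (pos (Fin.append u v) (m + n) k : ℝ) =
      h k * (pos u m k : ℝ) + h k * (pos v n k : ℝ) := by
    intro k
    rw [pos_append_right]
    push_cast [Pi.add_apply]
    ring
  simp only [e, Finset.sum_add_distrib, mul_add]
  unfold TH967.DP.shift
  ring

lemma meas_wt {Ω : Type*} [MeasurableSpace Ω] (ω : ℕ → (Fin d → ℤ) → Ω → ℝ) (β : ℝ)
    (h : Fin d → ℝ) (n : ℕ) (hm : ∀ i, 1 ≤ i → i ≤ n → ∀ y, Measurable (ω i y))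
    (w : Fin n → Step d) : Measurable (fun x => wt β h (fun i y => ω i y x) w) := by
  unfold wt energy
  apply Real.measurable_exp.comp
  apply Measurable.add_const
  apply Measurable.const_mul
  apply Finset.measurable_sum
  intro i _
  exact hm _ (by omega) (by have := i.isLt; omega) _

lemma meas_part {Ω : Type*} [MeasurableSpace Ω] (ω : ℕ → (Fin d → ℤ) → Ω → ℝ) (β : ℝ)
    (h : Fin d → ℝ) (n : ℕ) (hm : ∀ i, 1 ≤ i → i ≤ n → ∀ y, Measurable (ω i y)) :
    Measurable (fun x => part β h (fun i y => ω i y x) n Set.univ) := by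
  simp only [part_eq]
  apply Finset.measurable_sum
  intro w _
  exact meas_wt ω β h n hm w

lemma log_ge (hd : 1 ≤ d) (β : ℝ) (h : Fin d → ℝ) (η : ℕ → (Fin d → ℤ) → ℝ) (m n : ℕ) :
    Real.log (part β h η m Set.univ) + ∑ u : Fin m → Step d,
      (wt β h η u / part β h η m Set.univ) *
        Real.log (part β h (fun i y => η (m + i) (pos u m + y)) n Set.univ) ≤
      Real.log (part β h η (m + n) Set.univ) := by
  have hA := part_pos hd β h η m
  have hB : ∀ u : Fin m → Step d,
      0 < part β h (fun i y => η (m + i) (pos u m + y)) n Set.univ := fun u => part_pos hd _ _ _ _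
  have h1 : ∑ u : Fin m → Step d, (wt β h η u / part β h η m Set.univ) = 1 := by
    rw [← Finset.sum_div, ← part_eq, div_self hA.ne']
  have hJ := strictConcaveOn_log_Ioi.concaveOn.le_map_sum
    (t := (Finset.univ : Finset (Fin m → Step d)))
    (w := fun u => wt β h η u / part β h η m Set.univ)
    (p := fun u => part β h (fun i y => η (m + i) (pos u m + y)) n Set.univ)
    (fun u _ => (div_pos (wt_pos _ _ _ _) hA).le) h1 (fun u _ => hB u)
  simp only [smul_eq_mul] at hJ
  have h2 : part β h η (m + n) Set.univ = part β h η m Set.univ * ∑ u : Fin m → Step d,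
      (wt β h η u / part β h η m Set.univ) *
        part β h (fun i y => η (m + i) (pos u m + y)) n Set.univ := by
    rw [part_add, Finset.mul_sum]
    apply Finset.sum_congr rfl
    intro u _
    field_simp
  have hS : 0 < ∑ u : Fin m → Step d, (wt β h η u / part β h η m Set.univ) *
        part β h (fun i y => η (m + i) (pos u m + y)) n Set.univ := by
    by_contra hcon
    push Not at hcon
    have := part_pos hd β h η (m + n)
    rw [h2] at this
    nlinarith
  rw [h2, Real.log_mul hA.ne' hS.ne']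
  linarith

/-- independence of the weights up to time `m` and the free energy after time `m` -/
lemma indep_aux {Ω : Type} [MeasurableSpace Ω] (P : Measure Ω)
    [IsProbabilityMeasure P] (ω : ℕ → (Fin d → ℤ) → Ω → ℝ) (hω : IsEnv P ω)
    (β : ℝ) (h : Fin d → ℝ) (m n : ℕ) (u : Fin m → Step d) :
    IndepFun (fun x => wt β h (fun i y => ω i y x) u / part β h (fun i y => ω i y x) m Set.univ)
      (lw ω β h m (pos u m) n) P := by
  have hle : ∀ s : ℕ × (Fin d → ℤ), MeasurableSpace.comap (ω s.1 s.2) inferInstance ≤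
      (inferInstance : MeasurableSpace Ω) := fun s => (hω.meas s.1 s.2).comap_le
  have hI := indep_iSup_of_disjoint hle hω.indep
    (S := {s : ℕ × (Fin d → ℤ) | s.1 ≤ m}) (T := {s : ℕ × (Fin d → ℤ) | m < s.1})
    (by
      rw [Set.disjoint_left]
      intro s hs ht
      simp only [Set.mem_setOf_eq] at hs ht
      omega)
  rw [IndepFun_iff_Indep]
  refine indep_of_indep_of_le_left (indep_of_indep_of_le_right hI ?_) ?_
  · -- lw
    set m2 : MeasurableSpace Ω := ⨆ s ∈ {s : ℕ × (Fin d → ℤ) | m < s.1},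
      MeasurableSpace.comap (ω s.1 s.2) inferInstance with hm2
    have hmm : ∀ i, 1 ≤ i → i ≤ n → ∀ y, Measurable[m2] (ω (m + i) (pos u m + y)) := by
      intro i hi _ y
      have h1 : MeasurableSpace.comap (ω (m + i) (pos u m + y)) inferInstance ≤ m2 := by
        rw [hm2]
        exact le_iSup₂_of_le (m + i, pos u m + y) (by simp only [Set.mem_setOf_eq]; omega) le_rfl
      exact (comap_measurable (ω (m + i) (pos u m + y))).mono h1 le_rfl
    have h2 := @meas_part d Ω m2 (fun i y => ω (m + i) (pos u m + y)) β h n hmm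
    have h3 : Measurable[m2] (lw ω β h m (pos u m) n) := by
      unfold lw
      exact Real.measurable_log.comp h2
    exact h3.comap_le
  · set m1 : MeasurableSpace Ω := ⨆ s ∈ {s : ℕ × (Fin d → ℤ) | s.1 ≤ m},
      MeasurableSpace.comap (ω s.1 s.2) inferInstance with hm1
    have hmm : ∀ i, 1 ≤ i → i ≤ m → ∀ y, Measurable[m1] (ω i y) := by
      intro i _ hi y
      have h1 : MeasurableSpace.comap (ω i y) inferInstance ≤ m1 := by
        rw [hm1]
        exact le_iSup₂_of_le (i, y) (by simp only [Set.mem_setOf_eq]; omega) le_rfl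
      exact (comap_measurable (ω i y)).mono h1 le_rfl
    have h2 := @meas_part d Ω m1 (fun i y => ω i y) β h m hmm
    have h4 := @meas_wt d Ω m1 (fun i y => ω i y) β h m hmm u
    have h3 : Measurable[m1] (fun x => wt β h (fun i y => ω i y x) u /
        part β h (fun i y => ω i y x) m Set.univ) := h4.div h2
    exact h3.comap_le

theorem main (hc : S_CONC) : S_SUP := by
  intro d hd Ω _ P _ ω hω hint β h m n
  have hC := fun m z n => hc d hd Ω P ω hω hint β h m z n
  set p : (Fin m → Step d) → Ω → ℝ := fun u x =>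
    wt β h (fun i y => ω i y x) u / part β h (fun i y => ω i y x) m Set.univ with hp
  have hpm : ∀ u, Measurable (p u) := fun u =>
    (meas_wt ω β h m (fun i _ _ y => hω.meas i y) u).div
      (meas_part ω β h m (fun i _ _ y => hω.meas i y))
  have hp0 : ∀ u x, 0 ≤ p u x := fun u x => (div_pos (wt_pos _ _ _ _) (part_pos hd _ _ _ _)).le
  have hp1 : ∀ x, ∑ u, p u x = 1 := by
    intro x
    simp only [hp]
    rw [← Finset.sum_div, ← part_eq, div_self (part_pos hd _ _ _ _).ne']
  have hple : ∀ u x, p u x ≤ 1 := by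
    intro u x
    rw [← hp1 x]
    exact Finset.single_le_sum (f := fun u => p u x) (fun v _ => hp0 v x) (Finset.mem_univ u)
  have hpi : ∀ u, Integrable (p u) P := by
    intro u
    refine Integrable.of_bound (hpm u).aestronglyMeasurable 1 ?_
    filter_upwards with x
    rw [Real.norm_eq_abs, abs_of_nonneg (hp0 u x)]
    exact hple u x
  have hind := fun u => indep_aux P ω hω β h m n u
  have hprod : ∀ u, Integrable (fun x => p u x * lw ω β h m (pos u m) n x) P := fun u =>
    (hind u).integrable_mul (hpi u) (hC m (pos u m) n).2.1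
  have hval : ∀ u, ∫ x, p u x * lw ω β h m (pos u m) n x ∂P =
      (∫ x, p u x ∂P) * free P ω β h n := by
    intro u
    rw [← (hC m (pos u m) n).2.2.1]
    exact (hind u).integral_fun_mul_eq_mul_integral (hpm u).aestronglyMeasurable
      (hC m (pos u m) n).1.aestronglyMeasurable
  have h1 : ∑ u, ∫ x, p u x ∂P = 1 := by
    rw [← integral_finset_sum _ (fun u _ => hpi u)]
    simp only [hp1]
    simp
  have h2 : free P ω β h m + free P ω β h n =
      ∫ x, (lw ω β h 0 0 m x + ∑ u, p u x * lw ω β h m (pos u m) n x) ∂P := by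
    rw [integral_add (hC 0 0 m).2.1 (integrable_finset_sum _ fun u _ => hprod u),
      integral_finset_sum _ (fun u _ => hprod u)]
    simp only [hval]
    rw [← Finset.sum_mul, h1, one_mul]
    rfl
  rw [h2]
  unfold free
  refine integral_mono ((hC 0 0 m).2.1.add (integrable_finset_sum _ fun u _ => hprod u))
    (hC 0 0 (m + n)).2.1 ?_
  intro x
  have := log_ge hd β h (fun i y => ω i y x) m n
  simp only [lw, zero_add, hp]
  exact this

end Pool.Agent.N50.SE.SUP
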