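import Pool.Agent.N662.SE.Stm
import Pool.Agent.N662.SD.Main
import Pool.Agent.TH967.DP.Paths

set_option autoImplicit false

open MeasureTheory ProbabilityTheory Filter Topology

namespace Pool.Agent.N50.SE.VAR

open TH967.DP Pool.Agent.N662.SE

variable {n : ℕ}

/-- the sites which can be visited in the first `n` steps: time minus one, and position -/
abbrev Site (n : ℕ) : Type := Fin n × {y : ℤ // y ∈ Finset.Icc (-(n : ℤ)) n}

/-- the space-time point of a site -/
def pt (s : Site n) : ℕ × (Fin 1 → ℤ) := (s.1.val + 1, fun _ => s.2.1)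

lemma pt_inj : Function.Injective (pt (n := n)) := by
  intro s t h
  have h1 := congrArg Prod.fst h
  have h2 := congrFun (congrArg Prod.snd h) 0
  simp only [pt] at h1 h2
  apply Prod.ext
  · exact Fin.ext (by omega)
  · exact Subtype.ext h2

/-- the site visited at time `i+1` -/
def site (w : Fin n → Step 1) (i : Fin n) : Site n :=
  (i, ⟨pos w (i.val + 1) 0, by
    rw [Finset.mem_Icc]
    exact abs_le.1 (abs_pos_le w (i.val + 1) 0)⟩)

lemma site_inj (w : Fin n → Step 1) : Function.Injective (site w) := by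
  intro i j hij
  exact congrArg Prod.fst hij

/-- the visited sites -/
def vis (w : Fin n → Step 1) : Finset (Site n) := Finset.univ.image (site w)

/-- restriction of an environment to the relevant sites -/
def res (n : ℕ) (e : ℕ → (Fin 1 → ℤ) → ℝ) : Site n → ℝ := fun s => e (pt s).1 (pt s).2

lemma energy_eq (e : ℕ → (Fin 1 → ℤ) → ℝ) (w : Fin n → Step 1) :
    energy e w = ∑ s ∈ vis w, res n e s := by
  unfold vis
  rw [Finset.sum_image (fun i _ j _ hij => site_inj w hij)]
  unfold energy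
  apply Finset.sum_congr rfl
  intro i _
  simp only [res, pt, site]
  congr 1
  funext k
  rw [Subsingleton.elim k 0]

/-- the confined walks -/
def tb (n : ℕ) (v : ℝ) (r : ℝ) : Set (Fin n → Step 1) :=
  {w | ∀ i : ℕ, i ≤ n → |(pos w i 0 : ℝ) - i * v| ≤ r}

/-- the sites of the tube -/
noncomputable def win (v r : ℝ) (n : ℕ) : Finset (Site n) :=
  open Classical in
  Finset.univ.filter (fun s => |(s.2.1 : ℝ) - ((s.1.val + 1 : ℕ) : ℝ) * v| ≤ r)

lemma card_vis_inter {v r : ℝ} {w : Fin n → Step 1} (hw : w ∈ tb n v r) :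
    (vis w ∩ win v r n).card = n := by
  classical
  have h1 : vis w ∩ win v r n = vis w := by
    rw [Finset.inter_eq_left]
    intro s hs
    unfold vis at hs
    rw [Finset.mem_image] at hs
    obtain ⟨i, _, rfl⟩ := hs
    unfold win
    rw [Finset.mem_filter]
    refine ⟨Finset.mem_univ _, ?_⟩
    exact hw (i.val + 1) (by have := i.isLt; omega)
  rw [h1]
  unfold vis
  rw [Finset.card_image_of_injective _ (site_inj w), Finset.card_univ, Fintype.card_fin]

lemma card_win_le {v r : ℝ} (hr : 0 ≤ r) : ((win v r n).card : ℝ) ≤ n * (2 * r + 1) := by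
  classical
  have h1 : (win v r n).card = ∑ i : Fin n, ((win v r n).filter (fun s => s.1 = i)).card :=
    Finset.card_eq_sum_card_fiberwise (fun s _ => Finset.mem_coe.2 (Finset.mem_univ s.1))
  have h2 : ∀ i : Fin n, ((((win v r n).filter (fun s => s.1 = i)).card : ℕ) : ℝ) ≤
      2 * r + 1 := by
    intro i
    have h3 : ((win v r n).filter (fun s => s.1 = i)).card ≤
        (Finset.Icc ⌈((i.val + 1 : ℕ) : ℝ) * v - r⌉ ⌊((i.val + 1 : ℕ) : ℝ) * v + r⌋).card := by
      apply Finset.card_le_card_of_injOn (fun s => s.2.1)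
      · intro s hs
        rw [Finset.mem_coe, Finset.mem_filter] at hs
        obtain ⟨hs1, hs2⟩ := hs
        unfold win at hs1
        rw [Finset.mem_filter] at hs1
        have h4 := abs_le.1 hs1.2
        rw [hs2] at h4
        rw [Finset.mem_coe, Finset.mem_Icc]
        constructor
        · apply Int.ceil_le.2
          linarith
        · apply Int.le_floor.2
          linarith
      · intro s hs t ht hst
        rw [Finset.mem_coe, Finset.mem_filter] at hs ht
        apply Prod.ext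
        · rw [hs.2, ht.2]
        · exact Subtype.ext hst
    have h5 := Pool.Agent.N662.SD.card_int_le (x := ((i.val + 1 : ℕ) : ℝ) * v) hr
    refine le_trans ?_ h5
    exact_mod_cast h3
  rw [h1]
  push_cast
  calc ∑ i : Fin n, ((((win v r n).filter (fun s => s.1 = i)).card : ℕ) : ℝ) ≤
      ∑ _i : Fin n, (2 * r + 1) := Finset.sum_le_sum fun i _ => h2 i
    _ = n * (2 * r + 1) := by
      rw [Finset.sum_const, Finset.card_univ, Fintype.card_fin, nsmul_eq_mul]

lemma law {Ω : Type} [MeasurableSpace Ω] {P : Measure Ω} [IsProbabilityMeasure P]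
    {ω : ℕ → (Fin 1 → ℤ) → Ω → ℝ} (h : IsEnv P ω) {κ : Type} [Fintype κ]
    {φ : κ → ℕ × (Fin 1 → ℤ)} (hφ : Function.Injective φ) :
    P.map (fun a k => ω (φ k).1 (φ k).2 a) = Measure.pi (fun _ : κ => P.map (ω 1 0)) := by
  have h1 := h.indep.precomp hφ
  rw [iIndepFun_iff_map_fun_eq_pi_map (fun i => (h.meas _ _).aemeasurable)] at h1
  have h2 : ∀ k, P.map (ω (φ k).1 (φ k).2) = P.map (ω 1 0) := fun k => (h.ident _ _).map_eq
  rw [h1]
  congr 1
  ext1 k
  exact h2 k

/-- the drift factor -/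
noncomputable def dr (h : Fin 1 → ℝ) (w : Fin n → Step 1) : ℝ :=
  Real.exp (∑ k, h k * (pos w n k : ℝ))

/-- the partition function in terms of the restricted environment -/
noncomputable def zz (β : ℝ) (h : Fin 1 → ℝ) (A : Set (Fin n → Step 1)) (η : Site n → ℝ) : ℝ :=
  ∑ w : Fin n → Step 1, A.indicator
    (fun w => dr h w * Real.exp (β * ∑ s ∈ vis w, η s)) w

lemma part_eq_zz (β : ℝ) (h : Fin 1 → ℝ) (A : Set (Fin n → Step 1))
    (e : ℕ → (Fin 1 → ℤ) → ℝ) : part β h e n A = zz β h A (res n e) := by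
  unfold part zz
  apply Finset.sum_congr rfl
  intro w _
  by_cases hw : w ∈ A
  · rw [Set.indicator_of_mem hw, Set.indicator_of_mem hw, energy_eq, dr, ← Real.exp_add, add_comm]
  · rw [Set.indicator_of_notMem hw, Set.indicator_of_notMem hw]

lemma measurable_zz (β : ℝ) (h : Fin 1 → ℝ) (A : Set (Fin n → Step 1)) :
    Measurable (zz β h A) := by
  unfold zz
  apply Finset.measurable_sum
  intro w _
  by_cases hw : w ∈ A
  · simp only [Set.indicator_of_mem hw]
    fun_prop
  · simp only [Set.indicator_of_notMem hw]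
    exact measurable_const

lemma zz_eq_sub (β : ℝ) (h : Fin 1 → ℝ) (A : Set (Fin n → Step 1)) [Fintype A]
    (η : Site n → ℝ) :
    zz β h A η = ∑ w : A, dr h w.1 * Real.exp (β * ∑ s ∈ vis w.1, η s) := by
  have h1 : (∑ w : A, dr h w.1 * Real.exp (β * ∑ s ∈ vis w.1, η s)) =
      ∑ w ∈ A.toFinset, dr h w * Real.exp (β * ∑ s ∈ vis w, η s) :=
    Finset.sum_set_coe A (f := fun w => dr h w * Real.exp (β * ∑ s ∈ vis w, η s))
  rw [h1]
  unfold zz
  rw [← Finset.sum_subset (Finset.subset_univ A.toFinset)]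
  · apply Finset.sum_congr rfl
    intro w hw
    rw [Set.indicator_of_mem (Set.mem_toFinset.1 hw)]
  · intro w _ hw
    rw [Set.indicator_of_notMem (fun h2 => hw (Set.mem_toFinset.2 h2))]

lemma part_mono (β : ℝ) (h : Fin 1 → ℝ) (η : ℕ → (Fin 1 → ℤ) → ℝ) {A B : Set (Fin n → Step 1)}
    (hAB : A ⊆ B) : part β h η n A ≤ part β h η n B :=
  Finset.sum_le_sum fun _ _ =>
    Set.indicator_le_indicator_of_subset hAB (fun _ => (Real.exp_pos _).le) _

lemma part_univ_pos (β : ℝ) (h : Fin 1 → ℝ) (η : ℕ → (Fin 1 → ℤ) → ℝ) :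
    0 < part β h η n Set.univ := by
  unfold part
  apply Finset.sum_pos _ Finset.univ_nonempty
  intro w _
  rw [Set.indicator_of_mem (Set.mem_univ w)]
  exact Real.exp_pos _

/-- the main bound -/
theorem bound (ac : Pool.Agent.N662.SD.S_AC) {Ω : Type} [MeasurableSpace Ω] {P : Measure Ω}
    [IsProbabilityMeasure P] {ω : ℕ → (Fin 1 → ℤ) → Ω → ℝ} (he : IsEnv P ω) {a₀ b₀ : ℝ}
    (hab : a₀ < b₀)
    (hp : 0 < (P.map (ω 1 0)).real (Set.Ici b₀)) (hm : 0 < (P.map (ω 1 0)).real (Set.Iic a₀))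
    {β : ℝ} (hβ : 0 < β) (h : Fin 1 → ℝ) {v r : ℝ} {R Y : ℝ} (hR : 0 ≤ R) :
    (n : ℝ) * (1 - Real.exp (-(β * (b₀ - a₀)))) *
      P.real {x | 0 < part β h (fun i y => ω i y x) n (tb n v r) ∧
        Y ≤ Real.log (part β h (fun i y => ω i y x) n (tb n v r)) ∧
        Real.log (part β h (fun i y => ω i y x) n (tb n v r)) ≤ Y + R} ≤
    (R + 2) * Real.sqrt ((win v r n).card *
      (1 / (P.map (ω 1 0)).real (Set.Ici b₀) + 1 / (P.map (ω 1 0)).real (Set.Iic a₀))) := by
  classical
  set μ := P.map (ω 1 0) with hμ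
  have hprob : IsProbabilityMeasure μ :=
    Measure.isProbabilityMeasure_map (he.meas 1 0).aemeasurable
  set A := tb n v r with hA
  have hq : 0 ≤ 1 - Real.exp (-(β * (b₀ - a₀))) := by
    have : Real.exp (-(β * (b₀ - a₀))) ≤ 1 := Real.exp_le_one_iff.2 (by nlinarith)
    linarith
  have hRHS : 0 ≤ (R + 2) * Real.sqrt ((win v r n).card * (1 / μ.real (Set.Ici b₀) +
      1 / μ.real (Set.Iic a₀))) := by positivity
  rcases isEmpty_or_nonempty A with hemp | hne
  · have : {x | 0 < part β h (fun i y => ω i y x) n A ∧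
        Y ≤ Real.log (part β h (fun i y => ω i y x) n A) ∧
        Real.log (part β h (fun i y => ω i y x) n A) ≤ Y + R} = ∅ := by
      ext x
      simp only [Set.mem_setOf_eq, Set.mem_empty_iff_false, iff_false, not_and]
      intro h1
      exfalso
      rw [part_eq_zz, zz_eq_sub, Finset.univ_eq_empty, Finset.sum_empty] at h1
      exact lt_irrefl _ h1
    rw [this]
    simpa using hRHS
  · have key := ac (Site n) A μ a₀ b₀ hab hp hm β hβ (win v r n)
      (fun w => dr h w.1) (fun w => Real.exp_pos _) (fun w => vis w.1)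
      n (fun w => card_vis_inter w.2) (fun _ => Y) measurable_const (fun _ _ _ => rfl) R hR
    refine le_trans ?_ key
    apply mul_le_mul_of_nonneg_left _ (by positivity)
    have hres : Measurable (fun x => res n (fun i y => ω i y x)) := by
      rw [measurable_pi_iff]
      intro s
      exact he.meas _ _
    have hlaw : P.map (fun x => res n (fun i y => ω i y x)) = Measure.pi (fun _ : Site n => μ) :=
      law he (κ := Site n) (φ := pt) pt_inj
    have hS : MeasurableSet {η : Site n → ℝ | Y ≤ Real.log (zz β h A η) ∧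
        Real.log (zz β h A η) ≤ Y + R} := by
      have h1 : Measurable (fun η => Real.log (zz β h A η)) :=
        Real.measurable_log.comp (measurable_zz β h A)
      exact (measurableSet_le measurable_const h1).inter (measurableSet_le h1 measurable_const)
    have hzz : ∀ η : Site n → ℝ, (∑ w : A, dr h w.1 *
        Real.exp (β * ∑ s ∈ vis w.1, η s)) = zz β h A η := fun η => (zz_eq_sub β h A η).symm
    simp_rw [hzz]
    rw [← hlaw, map_measureReal_apply hres hS]
    apply measureReal_mono _ (measure_ne_top _ _)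
    rintro x ⟨_, h1, h2⟩
    rw [part_eq_zz] at h1 h2
    exact ⟨h1, h2⟩

lemma sq_le_exp (y : ℝ) : y ^ 2 ≤ 32 * (Real.exp (1 / 4 * y) + Real.exp (-(1 / 4) * y)) := by
  have h1 : ∀ z : ℝ, 0 ≤ z → z ^ 2 ≤ 32 * Real.exp (1 / 4 * z) := by
    intro z hz
    have := Real.quadratic_le_exp_of_nonneg (x := 1 / 4 * z) (by positivity)
    nlinarith
  rcases le_total 0 y with h | h
  · have h2 := h1 y h
    have h3 := Real.exp_pos (-(1 / 4) * y)
    linarith
  · have h2 := h1 (-y) (by linarith)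
    have h3 := Real.exp_pos (1 / 4 * y)
    have h4 : (1 / 4 : ℝ) * -y = -(1 / 4) * y := by ring
    rw [h4] at h2
    nlinarith

theorem main (hc : S_CONC) : S_VAR := by
  intro ac Ω _ P _ ω he hint hnc β hβ h v b hb0 hb1 hconf t ht
  obtain ⟨a₀, b₀, hab, hp, hm⟩ := Pool.Agent.N662.SD.gap (he.meas 1 0) hnc
  set K0 := 1 / (P.map (ω 1 0)).real (Set.Ici b₀) + 1 / (P.map (ω 1 0)).real (Set.Iic a₀) with hK0
  have hK0pos : 0 < K0 := by positivity
  set q := 1 - Real.exp (-(β * (b₀ - a₀))) with hq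
  have hqpos : 0 < q := by
    rw [hq]
    have : Real.exp (-(β * (b₀ - a₀))) < 1 := by
      rw [← Real.exp_zero]
      apply Real.exp_lt_exp.2
      have := mul_pos hβ (sub_pos.2 hab)
      linarith
    linarith
  -- the exponent
  obtain ⟨t1, ht1, ht2⟩ := exists_between (max_lt ht (by linarith : (0 : ℝ) < (1 - b) / 2))
  have ht3 : t < t1 := (le_max_left _ _).trans_lt ht1
  have ht4 : 0 < t1 := (le_max_right _ _).trans_lt ht1
  have e1 := Pool.Agent.N662.SD.pow_dom (s := t1 + (1 + b) / 2) (t := 1) (by linarith)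
    (5 * Real.sqrt (3 * K0) * 4 / q)
  have e2 := Pool.Agent.N662.SD.pow_dom (s := 2 * t) (t := 2 * t1) (by linarith) 2
  filter_upwards [hconf, e1, e2, eventually_ge_atTop 1] with n hn hn1 hn2 hn0
  have hn3 : (1 : ℝ) ≤ n := by exact_mod_cast hn0
  have hn4 : (0 : ℝ) < n := by linarith
  obtain ⟨hlm, hli, hle, hexp⟩ := hc 1 le_rfl Ω P ω he hint β h 0 0 n
  set F := free P ω β h n with hF
  have hlw : ∀ x, lw ω β h 0 0 n x = Real.log (part β h (fun i y => ω i y x) n Set.univ) := by
    intro x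
    simp only [lw, zero_add]
  have hA : {w : Fin n → Step 1 | ∀ i : ℕ, i ≤ n → ∀ k,
      |(pos w i k : ℝ) - i * v k| ≤ (n : ℝ) ^ b} = tb n (v 0) ((n : ℝ) ^ b) := by
    ext w
    simp only [tb, Set.mem_setOf_eq]
    constructor
    · intro hw i hi
      exact hw i hi 0
    · intro hw i hi k
      rw [Subsingleton.elim k 0]
      exact hw i hi
  rw [hA] at hn
  set A := tb n (v 0) ((n : ℝ) ^ b) with hAd
  set E0 : Set Ω := {x | |lw ω β h 0 0 n x - F| ≤ (n : ℝ) ^ t1} with hE0
  set E1 : Set Ω := {x | 1 / 2 ≤ prob β h (fun i y => ω i y x) n A} with hE1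
  have hE0m : MeasurableSet E0 :=
    measurableSet_le ((hlm.sub measurable_const).abs) measurable_const
  have hsub : E0 ∩ E1 ⊆ {x | 0 < part β h (fun i y => ω i y x) n A ∧
        F - (n : ℝ) ^ t1 - Real.log 2 ≤ Real.log (part β h (fun i y => ω i y x) n A) ∧
        Real.log (part β h (fun i y => ω i y x) n A) ≤
          F - (n : ℝ) ^ t1 - Real.log 2 + (2 * (n : ℝ) ^ t1 + Real.log 2)} := by
    rintro x ⟨h1, h2⟩
    simp only [hE0, hE1, Set.mem_setOf_eq] at h1 h2
    rw [hlw] at h1
    have hU := part_univ_pos (n := n) β h (fun i y => ω i y x)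
    unfold prob at h2
    rw [le_div_iff₀ hU] at h2
    have hPA : 0 < part β h (fun i y => ω i y x) n A := lt_of_lt_of_le (by positivity) h2
    have h3 := abs_le.1 h1
    have h4 := Real.log_le_log hPA (part_mono (n := n) β h (fun i y => ω i y x)
      (Set.subset_univ A))
    have h5 := Real.log_le_log (by positivity) h2
    rw [Real.log_mul (by norm_num) hU.ne', one_div, Real.log_inv] at h5
    refine ⟨hPA, ?_, ?_⟩ <;> linarith [h3.1, h3.2]
  have hna : 0 ≤ (n : ℝ) ^ b := Real.rpow_nonneg hn4.le _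
  have hnt : 1 ≤ (n : ℝ) ^ t1 := Real.one_le_rpow hn3 ht4.le
  have hnb1 : 1 ≤ (n : ℝ) ^ b := Real.one_le_rpow hn3 hb0
  have hlog2 : 0 ≤ Real.log 2 := Real.log_nonneg (by norm_num)
  have hlog2' : Real.log 2 ≤ 1 := by
    have := Real.log_two_lt_d9
    linarith
  have key := bound (n := n) ac he hab hp hm hβ h (v := v 0) (r := (n : ℝ) ^ b)
    (R := 2 * (n : ℝ) ^ t1 + Real.log 2) (Y := F - (n : ℝ) ^ t1 - Real.log 2) (by positivity)
  rw [← hAd, ← hK0, ← hq] at key
  have hp01 : P.real (E0 ∩ E1) ≤ 1 / 4 := by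
    have k0 : (n : ℝ) * q * P.real (E0 ∩ E1) ≤ (2 * (n : ℝ) ^ t1 + Real.log 2 + 2) *
        Real.sqrt ((win (v 0) ((n : ℝ) ^ b) n).card * K0) :=
      le_trans (mul_le_mul_of_nonneg_left (measureReal_mono hsub (measure_ne_top _ _))
        (by positivity)) key
    have k1 : ((win (v 0) ((n : ℝ) ^ b) n).card : ℝ) * K0 ≤ 3 * K0 * (n : ℝ) ^ (1 + b) := by
      have h1 : ((win (v 0) ((n : ℝ) ^ b) n).card : ℝ) ≤ 3 * (n : ℝ) ^ (1 + b) := by
        refine (card_win_le (n := n) hna).trans ?_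
        rw [Real.rpow_add hn4, Real.rpow_one]
        nlinarith
      nlinarith
    have k2 : Real.sqrt ((win (v 0) ((n : ℝ) ^ b) n).card * K0) ≤
        Real.sqrt (3 * K0) * (n : ℝ) ^ ((1 + b) / 2) := by
      refine (Real.sqrt_le_sqrt k1).trans (le_of_eq ?_)
      rw [Real.sqrt_mul (by positivity)]
      congr 1
      rw [Real.sqrt_eq_rpow, ← Real.rpow_mul hn4.le]
      congr 1
      ring
    have k3 : (n : ℝ) * q * P.real (E0 ∩ E1) ≤
        5 * Real.sqrt (3 * K0) * (n : ℝ) ^ (t1 + (1 + b) / 2) := by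
      refine k0.trans ?_
      calc (2 * (n : ℝ) ^ t1 + Real.log 2 + 2) *
          Real.sqrt ((win (v 0) ((n : ℝ) ^ b) n).card * K0) ≤
          (5 * (n : ℝ) ^ t1) * (Real.sqrt (3 * K0) * (n : ℝ) ^ ((1 + b) / 2)) := by
            apply mul_le_mul _ k2 (Real.sqrt_nonneg _) (by positivity)
            linarith
        _ = _ := by rw [Real.rpow_add hn4]; ring
    rw [Real.rpow_one] at hn1
    have k4 : 5 * Real.sqrt (3 * K0) * (n : ℝ) ^ (t1 + (1 + b) / 2) ≤ q / 4 * n := by
      have h1 : q / 4 * (5 * Real.sqrt (3 * K0) * 4 / q * (n : ℝ) ^ (t1 + (1 + b) / 2)) =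
          5 * Real.sqrt (3 * K0) * (n : ℝ) ^ (t1 + (1 + b) / 2) := by
        field_simp
      rw [← h1]
      exact mul_le_mul_of_nonneg_left hn1 (by positivity)
    have k5 : (n : ℝ) * q * P.real (E0 ∩ E1) ≤ (n : ℝ) * q * (1 / 4) := by
      calc _ ≤ _ := k3
        _ ≤ _ := k4
        _ = _ := by ring
    exact le_of_mul_le_mul_left k5 (by positivity)
  have hpE0 : P.real E0 ≤ 1 / 2 := by
    have h3 : P.real (E0 ∪ E1) + P.real (E0 ∩ E1) = P.real E0 + P.real E1 :=
      measureReal_union_add_inter' (μ := P) (s := E0) (t := E1) hE0m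
    have h4 : P.real (E0 ∪ E1) ≤ 1 := measureReal_le_one
    linarith
  have hpE0c : 1 / 2 ≤ P.real E0ᶜ := by
    rw [measureReal_compl hE0m, probReal_univ]
    linarith
  -- integrability of the square
  have hli1 : ∀ l : ℝ, |l| ≤ 1 / 4 →
      Integrable (fun x => Real.exp (l * (lw ω β h 0 0 n x - F))) P := by
    intro l hl
    refine ⟨(Real.measurable_exp.comp ((hlm.sub measurable_const).const_mul l)).aestronglyMeasurable,
      ?_⟩
    rw [hasFiniteIntegral_iff_ofReal (Eventually.of_forall fun x => (Real.exp_pos _).le)]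
    exact (hexp l hl).trans_lt ENNReal.ofReal_lt_top
  have hsq : Integrable (fun x => (lw ω β h 0 0 n x - F) ^ 2) P := by
    refine Integrable.mono' (((hli1 (1 / 4) (by rw [abs_of_pos] <;> norm_num)).add
      (hli1 (-(1 / 4)) (by rw [abs_neg, abs_of_pos] <;> norm_num))).const_mul 32)
      ((hlm.sub measurable_const).pow_const 2).aestronglyMeasurable ?_
    filter_upwards with x
    rw [Real.norm_eq_abs, abs_of_nonneg (sq_nonneg _)]
    exact sq_le_exp _
  -- Markov
  have hmk : (n : ℝ) ^ (2 * t1) * P.real E0ᶜ ≤ ∫ x, (lw ω β h 0 0 n x - F) ^ 2 ∂P := by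
    have h1 : ∫ x in E0ᶜ, (n : ℝ) ^ (2 * t1) ∂P = (n : ℝ) ^ (2 * t1) * P.real E0ᶜ := by
      rw [setIntegral_const, smul_eq_mul, mul_comm]
    rw [← h1]
    calc ∫ x in E0ᶜ, (n : ℝ) ^ (2 * t1) ∂P ≤ ∫ x in E0ᶜ, (lw ω β h 0 0 n x - F) ^ 2 ∂P := by
          apply setIntegral_mono_on (integrable_const _).integrableOn hsq.integrableOn hE0m.compl
          intro x hx
          have h2 : (n : ℝ) ^ t1 < |lw ω β h 0 0 n x - F| := by
            simpa [hE0] using hx
          have h3 : (n : ℝ) ^ (2 * t1) = ((n : ℝ) ^ t1) ^ 2 := by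
            rw [← Real.rpow_natCast, ← Real.rpow_mul hn4.le]
            congr 1
            push_cast
            ring
          rw [h3, ← sq_abs (lw ω β h 0 0 n x - F)]
          exact pow_le_pow_left₀ (by positivity) h2.le 2
      _ ≤ ∫ x, (lw ω β h 0 0 n x - F) ^ 2 ∂P :=
          setIntegral_le_integral hsq (Eventually.of_forall fun x => sq_nonneg _)
  have hfin : (n : ℝ) ^ (2 * t) ≤ (n : ℝ) ^ (2 * t1) * (1 / 2) := by linarith
  refine hfin.trans (le_trans ?_ hmk)
  exact mul_le_mul_of_nonneg_left hpE0c (Real.rpow_nonneg hn4.le _)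

end Pool.Agent.N50.SE.VAR
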